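import Pool.Agent.H37.UM.Stmts

/-!
# Project UM, module REC: the recursion of the numerators
-/

set_option autoImplicit false

namespace Pool.Agent.H5.UM

open PowerSeries Finset Pool.Agent.H37.UM

theorem w_mul_g (i : ℕ) (hi : 1 ≤ i) : w i * g i = 1 := by
  unfold g
  apply PowerSeries.mul_invOfUnit
  unfold w
  have : i ≠ 0 := by omega
  simp [this]

open scoped Classical in
theorem cc_succ (n i : ℕ) (hi : 1 ≤ i) :
    cc (n + 1) i = cc n i + if (∃ a, n + 1 = 2 ^ a * i) then 1 else 0 := by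
  have hi0 : i ≠ 0 := by omega
  rcases Nat.lt_trichotomy i (n + 1) with h | h | h
  · have h1 : cc (n + 1) i = Nat.log 2 ((n + 1) / i) + 1 := by
      unfold cc; rw [if_neg]; push Not; exact ⟨hi0, by omega⟩
    have h2 : cc n i = Nat.log 2 (n / i) + 1 := by
      unfold cc; rw [if_neg]; push Not; exact ⟨hi0, by omega⟩
    have hq : n / i ≠ 0 := by
      have := Nat.div_pos (show i ≤ n by omega) (show 0 < i by omega)
      omega
    have hq1 : (n + 1) / i ≠ 0 := by
      have := Nat.div_pos (show i ≤ n + 1 by omega) (show 0 < i by omega)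
      omega
    set L := Nat.log 2 (n / i) with hL
    have hle : 2 ^ L ≤ n / i := Nat.pow_log_le_self 2 hq
    have hlt : n / i < 2 ^ (L + 1) := Nat.lt_pow_succ_log_self (by norm_num) _
    have hle' : 2 ^ L * i ≤ n := (Nat.le_div_iff_mul_le (by omega)).mp hle
    have hlt' : n < 2 ^ (L + 1) * i := (Nat.div_lt_iff_lt_mul (by omega)).mp hlt
    rw [h1, h2]
    by_cases hn : n + 1 = 2 ^ (L + 1) * i
    · rw [if_pos ⟨L + 1, hn⟩]
      have : (n + 1) / i = 2 ^ (L + 1) := by
        rw [hn]; exact Nat.mul_div_cancel _ (by omega)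
      rw [this, Nat.log_pow (by norm_num)]
    · have hlt2 : n + 1 < 2 ^ (L + 1) * i := by omega
      have hL2 : Nat.log 2 ((n + 1) / i) = L := by
        apply Nat.log_eq_of_pow_le_of_lt_pow
        · exact (Nat.le_div_iff_mul_le (by omega)).mpr (by omega)
        · exact (Nat.div_lt_iff_lt_mul (by omega)).mpr hlt2
      rw [hL2, if_neg]
      rintro ⟨a, ha⟩
      have h3 : L < a := by
        by_contra hc
        push Not at hc
        have : 2 ^ a * i ≤ 2 ^ L * i := Nat.mul_le_mul_right _ (Nat.pow_le_pow_right (by norm_num) hc)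
        omega
      have h4 : 2 ^ (L + 1) * i ≤ 2 ^ a * i :=
        Nat.mul_le_mul_right _ (Nat.pow_le_pow_right (by norm_num) h3)
      omega
  · have h1 : cc (n + 1) i = 1 := by
      unfold cc
      rw [if_neg (by push Not; exact ⟨hi0, by omega⟩), h, Nat.div_self (by omega)]
      simp
    have h2 : cc n i = 0 := by
      unfold cc; rw [if_pos]; right; omega
    rw [h1, h2, if_pos ⟨0, by simp [h]⟩]
  · have h1 : cc (n + 1) i = 0 := by
      unfold cc; rw [if_pos]; right; omega
    have h2 : cc n i = 0 := by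
      unfold cc; rw [if_pos]; right; omega
    rw [h1, h2, if_neg]
    rintro ⟨a, ha⟩
    have : 1 * i ≤ 2 ^ a * i := Nat.mul_le_mul_right _ (Nat.one_le_two_pow)
    omega

theorem op_mul (m : ℕ) : 2 ^ padicValNat 2 m * op m = m := by
  unfold op
  exact Nat.mul_div_cancel' pow_padicValNat_dvd

theorem op_odd (m : ℕ) (hm : 1 ≤ m) : Odd (op m) := by
  rw [← Nat.not_even_iff_odd]
  intro he
  obtain ⟨r, hr⟩ := even_iff_two_dvd.mp he
  have h1 : 2 ^ (padicValNat 2 m + 1) ∣ m := by
    refine ⟨r, ?_⟩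
    conv_lhs => rw [← op_mul m, hr]
    ring
  exact pow_succ_padicValNat_not_dvd (by omega : m ≠ 0) h1

open scoped Classical in
theorem fil_image (n : ℕ) (hn : 1 ≤ n) :
    (Icc 1 n).filter (fun i => ∃ a, n = 2 ^ a * i) =
      (range (padicValNat 2 n + 1)).image (fun a => n / 2 ^ a) := by
  ext i
  simp only [mem_filter, mem_Icc, mem_image, mem_range]
  constructor
  · rintro ⟨⟨h1, _⟩, a, ha⟩
    refine ⟨a, ?_, ?_⟩
    · have : 2 ^ a ∣ n := ⟨i, ha⟩
      have := (padicValNat_dvd_iff_le (p := 2) (show n ≠ 0 by omega)).mp this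
      omega
    · rw [ha]; exact Nat.mul_div_cancel_left _ (by positivity)
  · rintro ⟨a, ha, rfl⟩
    have hd : 2 ^ a ∣ n := (padicValNat_dvd_iff_le (p := 2) (show n ≠ 0 by omega)).mpr (by omega)
    have h1 : 2 ^ a * (n / 2 ^ a) = n := Nat.mul_div_cancel' hd
    refine ⟨⟨?_, Nat.div_le_self _ _⟩, a, h1.symm⟩
    exact Nat.div_pos (Nat.le_of_dvd (by omega) hd) (by positivity)

theorem div_inj (n : ℕ) (hn : 1 ≤ n) :
    Set.InjOn (fun a => n / 2 ^ a) (range (padicValNat 2 n + 1) : Set ℕ) := by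
  intro a ha b hb hab
  simp only [coe_range, Set.mem_Iio] at ha hb
  have hda : 2 ^ a ∣ n := (padicValNat_dvd_iff_le (p := 2) (show n ≠ 0 by omega)).mpr (by omega)
  have hdb : 2 ^ b ∣ n := (padicValNat_dvd_iff_le (p := 2) (show n ≠ 0 by omega)).mpr (by omega)
  have h1 : 2 ^ a * (n / 2 ^ a) = n := Nat.mul_div_cancel' hda
  have h2 : 2 ^ b * (n / 2 ^ b) = n := Nat.mul_div_cancel' hdb
  simp only at hab
  rw [← hab] at h2
  have h3 : 0 < n / 2 ^ a := by
    rcases Nat.eq_zero_or_pos (n / 2 ^ a) with h | h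
    · rw [h] at h1; omega
    · exact h
  have h4 : 2 ^ a = 2 ^ b := Nat.eq_of_mul_eq_mul_right h3 (by rw [h1, h2])
  exact Nat.pow_right_injective (le_refl 2) h4

open scoped Classical in
theorem den_succ (n : ℕ) :
    den (n + 1) = den n * ∏ a ∈ range (padicValNat 2 (n + 1) + 1), w ((n + 1) / 2 ^ a) := by
  have h1 : den (n + 1) = ∏ i ∈ Icc 1 (n + 1),
      (w i ^ cc n i * if (∃ a, n + 1 = 2 ^ a * i) then w i else 1) := by
    unfold den
    refine prod_congr rfl fun i hi => ?_
    rw [mem_Icc] at hi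
    rw [cc_succ n i hi.1, pow_add]
    split_ifs with h
    · rw [pow_one]
    · rw [pow_zero]
  rw [h1, prod_mul_distrib]
  congr 1
  · unfold den
    rw [Finset.prod_Icc_succ_top (by omega)]
    have : cc n (n + 1) = 0 := by unfold cc; rw [if_pos]; right; omega
    rw [this, pow_zero, mul_one]
  · rw [← prod_filter, fil_image (n + 1) (by omega), prod_image]
    exact div_inj (n + 1) (by omega)

theorem w_one : w 1 = 1 - X := by
  unfold w; ring

theorem iv_mul (k : ℕ) : iv k * (1 - X) = 1 - X ^ k := by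
  unfold iv
  exact geom_sum_mul_neg X k

theorem F_mul (m : ℕ) (hm : 1 ≤ m) :
    F m * w 1 = ∏ a ∈ range (padicValNat 2 m + 1), w (m / 2 ^ a) := by
  set v := padicValNat 2 m with hv
  have hop : 2 ^ v * op m = m := op_mul m
  have hodd := op_odd m hm
  rw [prod_range_succ]
  have h1 : m / 2 ^ v = op m := rfl
  rw [h1]
  have h2 : w (op m) = 1 - X ^ op m := by
    unfold w
    rw [Odd.neg_pow hodd]; ring
  have h3 : ∏ a ∈ range v, w (m / 2 ^ a) =
      ∏ a ∈ range v, (1 + X ^ (2 ^ (a + 1) * op m) : ℤ⟦X⟧) := by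
    rw [← prod_range_reflect]
    refine prod_congr rfl fun a ha => ?_
    rw [mem_range] at ha
    have h4 : m / 2 ^ (v - 1 - a) = 2 ^ (a + 1) * op m := by
      have h5 : m = 2 ^ (v - 1 - a) * (2 ^ (a + 1) * op m) := by
        rw [← mul_assoc, ← pow_add, show v - 1 - a + (a + 1) = v by omega, hop]
      conv_lhs => rw [h5]
      exact Nat.mul_div_cancel_left _ (by positivity)
    rw [h4]
    unfold w
    congr 1
    apply Even.neg_pow
    rw [pow_succ]
    exact ⟨2 ^ a * op m, by ring⟩
  rw [h3, h2]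
  unfold F
  rw [w_one, ← iv_mul (op m)]
  ring

theorem F_den (n : ℕ) : F (n + 1) * den n = den (n + 1) * g 1 := by
  rw [den_succ n, ← F_mul (n + 1) (by omega)]
  have := w_mul_g 1 (le_refl 1)
  calc F (n + 1) * den n = F (n + 1) * den n * (w 1 * g 1) := by rw [this, mul_one]
    _ = _ := by ring

theorem den_zero : den 0 = 1 := by
  unfold den; simp

theorem U_den (j n : ℕ) (h : j ≤ n) : U j n * den j = den n * g 1 ^ (n - j) := by
  induction n, h using Nat.le_induction with
  | base => unfold U; simp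
  | succ n hn ih =>
    have h1 : U j (n + 1) = U j n * F (n + 1) := by
      unfold U
      exact Finset.prod_Ioc_succ_top (by omega) _
    rw [h1, show n + 1 - j = n - j + 1 by omega, pow_succ]
    calc U j n * F (n + 1) * den j = F (n + 1) * (U j n * den j) := by ring
      _ = F (n + 1) * den n * g 1 ^ (n - j) := by rw [ih]; ring
      _ = _ := by rw [F_den]; ring

/-- the recursion of the numerators -/
theorem REC_thm (hG : GENStmt) : RECStmt := by
  obtain ⟨-, -, -, h4, h5, h6⟩ := hG
  refine ⟨?_, ?_, U_den⟩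
  · intro n hn
    obtain ⟨k, rfl⟩ : ∃ k, n = k + 1 := ⟨n - 1, by omega⟩
    have h7 := h4 1 (k + 1) (k + 1) (le_refl 1) (by omega)
    rw [if_pos (by omega), h5 (k + 1) (k + 1) (le_refl _), h6 (k + 1) (k + 1) (le_refl _),
      h5 (k + 1 - 1) (k + 1) (by omega)] at h7
    unfold P Q
    rw [h7]
    simp only [Nat.add_sub_cancel]
    calc den (k + 1) * (h2 (k + 1) + g 1 * h k) = den (k + 1) * g 1 * h k + den (k + 1) * h2 (k + 1) := by
          ring
      _ = _ := by rw [← F_den]; ring
  · intro n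
    have := U_den 0 n (Nat.zero_le n)
    rw [den_zero, mul_one, Nat.sub_zero] at this
    exact this

end Pool.Agent.H5.UM
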